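import Pool.Agent.V1198.FBL

/-!
# The norm of the free Banach lattice over the Euclidean plane is not octahedral

Four narrow double bumps `(|δ_u| - K |δ_v|)^+` at the directions `0, π/4, π/2, 3π/4` are used. If `y`
in the unit sphere is almost `ℓ_1`-orthogonal to all of them, then the suprema `A_j` of `|y|` near
these directions satisfy `A_j + (√2 - 1) A_{j'} ≥ 1` approximately, `j'` the orthogonal direction,
so that `∑ A_j ≥ 2√2` approximately. But the norm of `y` is at least `∑ A_j / √(4 + 2√2)`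
approximately.
-/

set_option autoImplicit false

noncomputable section

open Pool.Agent.V1198.FB

namespace Pool.Agent.Results.MP_8a6196_an.NotOctahedral

/-! ### The plane in coordinates -/

/-- Admissible families in coordinates. -/
def Adm2 {m : ℕ} (a b : Fin m → ℝ) : Prop :=
  ∀ s t : ℝ, s ^ 2 + t ^ 2 ≤ 1 → ∑ i, |a i * s + b i * t| ≤ 1

/-- Positively homogeneous functions of norm at most one, in coordinates. -/
structure Good (Y : ℝ → ℝ → ℝ) : Prop where
  hom : ∀ r a b, 0 ≤ r → Y (r * a) (r * b) = r * Y a b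
  bdd : ∀ (m : ℕ) (a b : Fin m → ℝ), Adm2 a b → ∑ i, |Y (a i) (b i)| ≤ 1

/-- The values near the first axis. -/
def vals (Y : ℝ → ℝ → ℝ) (K : ℝ) : Set ℝ := {r | ∃ a b, |a| = 1 ∧ K * |b| ≤ 1 ∧ r = |Y a b|}

/-- The supremum of the values near the first axis. -/
def cone (Y : ℝ → ℝ → ℝ) (K : ℝ) : ℝ := sSup (vals Y K)

/-- The coordinates are interchanged. -/
def swap (Y : ℝ → ℝ → ℝ) : ℝ → ℝ → ℝ := fun a b => Y b a

/-- The coordinates are rotated. -/
def rot (Y : ℝ → ℝ → ℝ) : ℝ → ℝ → ℝ := fun a b => Y ((a + b) / √2) ((a - b) / √2)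

theorem Good.swap {Y : ℝ → ℝ → ℝ} (h : Good Y) : Good (swap Y) where
  hom r a b hr := h.hom r b a hr
  bdd m a b hab := h.bdd m b a fun s t hst => by
    have := hab t s (by linarith)
    simpa only [add_comm] using this

theorem sqrt_two_pos : (0 : ℝ) < √2 := by positivity

theorem sq_sqrt_two : √2 * √2 = (2 : ℝ) := Real.mul_self_sqrt (by norm_num)

theorem Good.rot {Y : ℝ → ℝ → ℝ} (h : Good Y) : Good (rot Y) where
  hom r a b hr := by
    simp only [NotOctahedral.rot]
    rw [← h.hom _ _ _ hr]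
    congr 1 <;> ring
  bdd m a b hab := h.bdd m _ _ fun s t hst => by
    have h1 := hab ((s + t) / √2) ((s - t) / √2) (by
      rw [div_pow, div_pow, Real.sq_sqrt (by norm_num)]
      nlinarith)
    refine le_trans (le_of_eq ?_) h1
    refine Finset.sum_congr rfl fun i _ => ?_
    congr 1
    ring

theorem Good.abs_le {Y : ℝ → ℝ → ℝ} (h : Good Y) (a b : ℝ) : |Y a b| ≤ |a| + |b| := by
  set c := |a| + |b| with hc
  have hc0 : 0 ≤ c := by positivity
  rcases hc0.eq_or_lt with h0 | h0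
  · have ha : a = 0 := abs_eq_zero.mp (le_antisymm (by linarith [abs_nonneg b]) (abs_nonneg a))
    have hb : b = 0 := abs_eq_zero.mp (le_antisymm (by linarith [abs_nonneg a]) (abs_nonneg b))
    have h1 := h.hom 0 a b le_rfl
    rw [zero_mul, zero_mul, zero_mul] at h1
    rw [ha, hb, h1, abs_zero]
    exact hc0
  · have h1 := h.bdd 1 (fun _ => c⁻¹ * a) (fun _ => c⁻¹ * b) fun s t hst => by
      rw [Fin.sum_univ_one]
      have h2 : c⁻¹ * a * s + c⁻¹ * b * t = c⁻¹ * (a * s + b * t) := by ring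
      rw [h2, abs_mul, abs_of_pos (inv_pos.mpr h0), inv_mul_le_iff₀ h0, mul_one]
      have hs : |s| ≤ 1 := by rw [← sq_le_one_iff_abs_le_one]; nlinarith [sq_nonneg t]
      have ht : |t| ≤ 1 := by rw [← sq_le_one_iff_abs_le_one]; nlinarith [sq_nonneg s]
      calc |a * s + b * t| ≤ |a| * |s| + |b| * |t| := by
            rw [← abs_mul, ← abs_mul]; exact abs_add_le _ _
        _ ≤ c := by rw [hc]; nlinarith [abs_nonneg a, abs_nonneg b]
    rw [Fin.sum_univ_one, h.hom _ _ _ (inv_nonneg.mpr h0.le), abs_mul, abs_of_pos (inv_pos.mpr h0),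
      inv_mul_le_iff₀ h0, mul_one] at h1
    exact h1

theorem vals_bdd {Y : ℝ → ℝ → ℝ} (h : Good Y) {K : ℝ} (hK : 1 ≤ K) : ∀ r ∈ vals Y K, r ≤ 2 := by
  rintro _ ⟨a, b, ha, hb, rfl⟩
  have h1 := h.abs_le a b
  have h2 : |b| ≤ 1 := by nlinarith [abs_nonneg b]
  linarith

theorem vals_nonempty (Y : ℝ → ℝ → ℝ) (K : ℝ) : (vals Y K).Nonempty :=
  ⟨_, 1, 0, abs_one, by simp, rfl⟩

theorem cone_le_two {Y : ℝ → ℝ → ℝ} (h : Good Y) {K : ℝ} (hK : 1 ≤ K) : cone Y K ≤ 2 :=
  csSup_le (vals_nonempty Y K) (vals_bdd h hK)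

theorem cone_nonneg (Y : ℝ → ℝ → ℝ) (K : ℝ) : 0 ≤ cone Y K :=
  Real.sSup_nonneg (by rintro _ ⟨a, b, _, _, rfl⟩; exact abs_nonneg _)

theorem abs_le_cone {Y : ℝ → ℝ → ℝ} (h : Good Y) {K : ℝ} (hK : 1 ≤ K) {a b : ℝ}
    (hab : K * |b| ≤ |a|) : |Y a b| ≤ cone Y K * |a| := by
  rcases (abs_nonneg a).eq_or_lt with h0 | h0
  · have hb : |b| = 0 := by nlinarith [abs_nonneg b]
    have h1 := h.abs_le a b
    rw [← h0, hb] at h1
    rw [← h0, mul_zero]
    linarith
  · have h1 : |Y (|a|⁻¹ * a) (|a|⁻¹ * b)| ≤ cone Y K := by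
      refine le_csSup ⟨2, vals_bdd h hK⟩ ⟨_, _, ?_, ?_, rfl⟩
      · rw [abs_mul, abs_inv, abs_abs, inv_mul_cancel₀ h0.ne']
      · rw [abs_mul, abs_inv, abs_abs, mul_left_comm, inv_mul_le_iff₀ h0, mul_one]
        exact hab
    rw [h.hom _ _ _ (inv_nonneg.mpr h0.le), abs_mul, abs_inv, abs_abs, inv_mul_le_iff₀ h0] at h1
    linarith

/-- The bump. -/
def bump (K a b : ℝ) : ℝ := max (|a| - K * |b|) 0

theorem max_abs_le (a b : ℝ) : max |a| |b| ≤ (|a + b| + |a - b|) / 2 := by
  refine max_le ?_ ?_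
  · have := abs_add_le (a + b) (a - b)
    have h2 : a + b + (a - b) = 2 * a := by ring
    rw [h2, abs_mul, abs_two] at this
    linarith
  · have := abs_sub (a + b) (a - b)
    have h2 : a + b - (a - b) = 2 * b := by ring
    rw [h2, abs_mul, abs_two] at this
    linarith

theorem key {Y : ℝ → ℝ → ℝ} (h : Good Y) {K ε : ℝ} (hK : 1 ≤ K) (hε : 0 ≤ ε) {m : ℕ}
    {a b : Fin m → ℝ} (hab : Adm2 a b)
    (hsum : 2 - 3 * ε ≤ ∑ i, |bump K (a i) (b i) + Y (a i) (b i)|) :
    1 ≤ cone Y K + (√2 - 1) * cone (swap Y) K + (12 + 3 * K) * ε := by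
  classical
  have hs2 := sqrt_two_pos
  have hs3 := sq_sqrt_two
  -- sums of coordinates
  have h1 : ∑ i, |a i| ≤ 1 := by
    have := hab 1 0 (by norm_num)
    simpa using this
  have h2 : ∑ i, max |a i| |b i| ≤ √2 := by
    have e1 := hab (√2 / 2) (√2 / 2) (by nlinarith)
    have e2 := hab (√2 / 2) (-(√2 / 2)) (by nlinarith)
    have e3 : ∀ i, max |a i| |b i| ≤
        (√2 / 2) * (|a i * (√2 / 2) + b i * (√2 / 2)| + |a i * (√2 / 2) + b i * (-(√2 / 2))|) := by
      intro i
      have f1 : a i * (√2 / 2) + b i * (√2 / 2) = (√2 / 2) * (a i + b i) := by ring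
      have f2 : a i * (√2 / 2) + b i * (-(√2 / 2)) = (√2 / 2) * (a i - b i) := by ring
      rw [f1, f2, abs_mul, abs_mul, abs_of_pos (show (0 : ℝ) < √2 / 2 by positivity)]
      have f3 := max_abs_le (a i) (b i)
      have f4 : √2 / 2 * (√2 / 2 * |a i + b i| + √2 / 2 * |a i - b i|) =
          (√2 * √2) / 4 * (|a i + b i| + |a i - b i|) := by ring
      rw [f4, hs3]
      linarith
    calc ∑ i, max |a i| |b i| ≤ _ := Finset.sum_le_sum fun i _ => e3 i
      _ ≤ √2 := by
        rw [← Finset.mul_sum, Finset.sum_add_distrib]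
        nlinarith
  have hF0 : ∀ i, 0 ≤ bump K (a i) (b i) := fun i => le_max_right _ _
  have hFa : ∀ i, bump K (a i) (b i) ≤ |a i| := fun i => by
    refine max_le ?_ (abs_nonneg _)
    have := abs_nonneg (b i)
    nlinarith
  have h3 : ∑ i, bump K (a i) (b i) ≤ 1 := (Finset.sum_le_sum fun i _ => hFa i).trans h1
  have h4 : ∑ i, |Y (a i) (b i)| ≤ 1 := h.bdd m a b hab
  have h5 : ∑ i, |bump K (a i) (b i) + Y (a i) (b i)| ≤
      ∑ i, bump K (a i) (b i) + ∑ i, |Y (a i) (b i)| := by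
    rw [← Finset.sum_add_distrib]
    refine Finset.sum_le_sum fun i _ => (abs_add_le _ _).trans ?_
    rw [abs_of_nonneg (hF0 i)]
  -- the pointwise estimate
  set al : Fin m → ℝ := fun i => if K * |b i| ≤ |a i| then |a i| else 0 with hal
  set be : Fin m → ℝ := fun i => if K * |b i| ≤ |a i| then 0 else
    if K * |a i| ≤ |b i| then |b i| else 0 with hbe
  have h6 : ∀ i, |Y (a i) (b i)| ≤
      cone Y K * al i + cone (swap Y) K * be i + (1 + K) * (|a i| - bump K (a i) (b i)) := by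
    intro i
    simp only [hal, hbe]
    have g1 := cone_nonneg Y K
    have g2 := cone_nonneg (swap Y) K
    have g3 := hFa i
    by_cases c1 : K * |b i| ≤ |a i|
    · rw [if_pos c1, if_pos c1, mul_zero]
      have := abs_le_cone h hK c1
      nlinarith
    · rw [if_neg c1, if_neg c1, mul_zero]
      by_cases c2 : K * |a i| ≤ |b i|
      · rw [if_pos c2]
        have := abs_le_cone h.swap hK c2
        have e : |swap Y (b i) (a i)| = |Y (a i) (b i)| := rfl
        rw [e] at this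
        have g4 : 0 ≤ (1 + K) * (|a i| - bump K (a i) (b i)) :=
          mul_nonneg (by linarith) (by linarith)
        linarith
      · rw [if_neg c2, mul_zero]
        push Not at c1 c2
        have e : bump K (a i) (b i) = 0 := max_eq_right (by linarith)
        rw [e]
        have := h.abs_le (a i) (b i)
        nlinarith
  have h7 : ∑ i, al i ≤ 1 := by
    refine le_trans (Finset.sum_le_sum fun i _ => ?_) h1
    simp only [hal]
    split_ifs
    · exact le_rfl
    · exact abs_nonneg _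
  have h8 : ∑ i, be i + ∑ i, bump K (a i) (b i) ≤ √2 := by
    rw [← Finset.sum_add_distrib]
    refine le_trans (Finset.sum_le_sum fun i _ => ?_) h2
    simp only [hbe]
    by_cases c1 : K * |b i| ≤ |a i|
    · rw [if_pos c1, zero_add]
      exact (hFa i).trans (le_max_left _ _)
    · rw [if_neg c1]
      have e : bump K (a i) (b i) = 0 := max_eq_right (by push Not at c1; linarith)
      rw [e, add_zero]
      split_ifs
      · exact le_max_right _ _
      · exact (abs_nonneg _).trans (le_max_left _ _)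
  have h9 : ∑ i, |Y (a i) (b i)| ≤ cone Y K * ∑ i, al i + cone (swap Y) K * ∑ i, be i +
      (1 + K) * (∑ i, |a i| - ∑ i, bump K (a i) (b i)) := by
    rw [Finset.mul_sum, Finset.mul_sum, ← Finset.sum_sub_distrib, Finset.mul_sum,
      ← Finset.sum_add_distrib, ← Finset.sum_add_distrib]
    exact Finset.sum_le_sum fun i _ => h6 i
  have g1 := cone_nonneg Y K
  have g2 := cone_nonneg (swap Y) K
  have g3 := cone_le_two h.swap hK
  have i1 : cone Y K * ∑ i, al i ≤ cone Y K := by nlinarith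
  have i2 : cone (swap Y) K * ∑ i, be i ≤ cone (swap Y) K * (√2 - 1 + 3 * ε) :=
    mul_le_mul_of_nonneg_left (by linarith) g2
  have i3 : (1 + K) * (∑ i, |a i| - ∑ i, bump K (a i) (b i)) ≤ (1 + K) * (3 * ε) :=
    mul_le_mul_of_nonneg_left (by linarith) (by linarith)
  nlinarith

theorem octagon (s t : ℝ) (hst : s ^ 2 + t ^ 2 ≤ 1) :
    |s| + |t| + (|s + t| + |s - t|) / √2 ≤ √(4 + 2 * √2) := by
  have hs2 := sqrt_two_pos
  have hs3 := sq_sqrt_two
  have h0 : |s + t| + |s - t| = 2 * max |s| |t| := by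
    refine le_antisymm ?_ (by have := max_abs_le s t; linarith)
    have h1 : ∀ s t : ℝ, |s| ≤ |t| → |s + t| + |s - t| ≤ 2 * |t| := by
      intro s t h
      rcases abs_cases s with ⟨h1, h1'⟩ | ⟨h1, h1'⟩ <;> rcases abs_cases t with ⟨h2, h2'⟩ | ⟨h2, h2'⟩ <;>
        rcases abs_cases (s + t) with ⟨h3, h3'⟩ | ⟨h3, h3'⟩ <;>
        rcases abs_cases (s - t) with ⟨h4, h4'⟩ | ⟨h4, h4'⟩ <;> linarith
    rcases le_total |s| |t| with h | h
    · rw [max_eq_right h]
      exact h1 s t h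
    · rw [max_eq_left h]
      have := h1 t s h
      rw [add_comm t s, abs_sub_comm t s] at this
      exact this
  rw [h0]
  have h1 : 2 * max |s| |t| / √2 = √2 * max |s| |t| := by
    rw [div_eq_iff hs2.ne', mul_right_comm, hs3]
  rw [h1]
  refine Real.le_sqrt_of_sq_le ?_
  have hs : |s| ^ 2 = s ^ 2 := sq_abs s
  have ht : |t| ^ 2 = t ^ 2 := sq_abs t
  rcases le_total |s| |t| with h | h
  · rw [max_eq_right h]
    nlinarith [sq_nonneg ((1 + √2) * |s| - |t|), abs_nonneg s, abs_nonneg t]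
  · rw [max_eq_left h]
    nlinarith [sq_nonneg ((1 + √2) * |t| - |s|), abs_nonneg s, abs_nonneg t]

theorem test {Y : ℝ → ℝ → ℝ} (h : Good Y) {K : ℝ} (hK : 1 ≤ K) :
    cone Y K + cone (swap Y) K + cone (rot Y) K + cone (swap (rot Y)) K ≤
      (1 + 1 / K) * √(4 + 2 * √2) := by
  have hs2 := sqrt_two_pos
  refine le_of_forall_pos_le_add fun δ hδ => ?_
  have hex : ∀ Z : ℝ → ℝ → ℝ, ∃ a b, |a| = 1 ∧ |b| ≤ 1 / K ∧ cone Z K - δ / 4 < |Z a b| := by
    intro Z
    obtain ⟨_, ⟨a, b, ha, hb, rfl⟩, hlt⟩ := exists_lt_of_lt_csSup (vals_nonempty Z K)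
      (show cone Z K - δ / 4 < cone Z K by linarith)
    exact ⟨a, b, ha, by rw [le_div_iff₀ (by linarith)]; linarith, hlt⟩
  obtain ⟨a0, b0, ha0, hb0, h0⟩ := hex Y
  obtain ⟨a1, b1, ha1, hb1, h1⟩ := hex (swap Y)
  obtain ⟨a2, b2, ha2, hb2, h2⟩ := hex (rot Y)
  obtain ⟨a3, b3, ha3, hb3, h3⟩ := hex (swap (rot Y))
  set S := (1 + 1 / K) * √(4 + 2 * √2) with hS
  have hSpos : 0 < S := by positivity
  set w := S⁻¹ with hw
  have hwpos : 0 < w := inv_pos.mpr hSpos
  have hadm : Adm2 ![w * a0, w * b1, w * ((a2 + b2) / √2), w * ((b3 + a3) / √2)]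
      ![w * b0, w * a1, w * ((a2 - b2) / √2), w * ((b3 - a3) / √2)] := by
    intro s t hst
    rw [Fin.sum_univ_four]
    simp only [Matrix.cons_val_zero, Matrix.cons_val_one, Matrix.cons_val]
    have f : ∀ p q x y : ℝ, |p| = 1 → |q| ≤ 1 / K → |p * x + q * y| ≤ |x| + 1 / K * |y| := by
      intro p q x y hp hq
      refine (abs_add_le _ _).trans ?_
      rw [abs_mul, abs_mul, hp, one_mul]
      exact add_le_add le_rfl (mul_le_mul_of_nonneg_right hq (abs_nonneg _))
    have g0 : |w * a0 * s + w * b0 * t| ≤ w * (|s| + 1 / K * |t|) := by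
      rw [mul_assoc, mul_assoc, ← mul_add, abs_mul, abs_of_pos hwpos]
      exact mul_le_mul_of_nonneg_left (f a0 b0 s t ha0 hb0) hwpos.le
    have g1 : |w * b1 * s + w * a1 * t| ≤ w * (|t| + 1 / K * |s|) := by
      rw [mul_assoc, mul_assoc, ← mul_add, abs_mul, abs_of_pos hwpos, add_comm (b1 * s)]
      exact mul_le_mul_of_nonneg_left (f a1 b1 t s ha1 hb1) hwpos.le
    have g2 : |w * ((a2 + b2) / √2) * s + w * ((a2 - b2) / √2) * t| ≤
        w * (|s + t| / √2 + 1 / K * (|s - t| / √2)) := by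
      have e : w * ((a2 + b2) / √2) * s + w * ((a2 - b2) / √2) * t =
          w * (a2 * ((s + t) / √2) + b2 * ((s - t) / √2)) := by ring
      rw [e, abs_mul, abs_of_pos hwpos]
      have := f a2 b2 ((s + t) / √2) ((s - t) / √2) ha2 hb2
      rw [abs_div, abs_div, abs_of_pos hs2] at this
      exact mul_le_mul_of_nonneg_left this hwpos.le
    have g3 : |w * ((b3 + a3) / √2) * s + w * ((b3 - a3) / √2) * t| ≤
        w * (|s - t| / √2 + 1 / K * (|s + t| / √2)) := by
      have e : w * ((b3 + a3) / √2) * s + w * ((b3 - a3) / √2) * t =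
          w * (a3 * ((s - t) / √2) + b3 * ((s + t) / √2)) := by ring
      rw [e, abs_mul, abs_of_pos hwpos]
      have := f a3 b3 ((s - t) / √2) ((s + t) / √2) ha3 hb3
      rw [abs_div, abs_div, abs_of_pos hs2] at this
      exact mul_le_mul_of_nonneg_left this hwpos.le
    calc _ ≤ w * (|s| + 1 / K * |t|) + w * (|t| + 1 / K * |s|) +
          w * (|s + t| / √2 + 1 / K * (|s - t| / √2)) +
          w * (|s - t| / √2 + 1 / K * (|s + t| / √2)) := by
          exact add_le_add (add_le_add (add_le_add g0 g1) g2) g3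
      _ = w * ((1 + 1 / K) * (|s| + |t| + (|s + t| + |s - t|) / √2)) := by ring
      _ ≤ w * S := by
          refine mul_le_mul_of_nonneg_left ?_ hwpos.le
          exact mul_le_mul_of_nonneg_left (octagon s t hst) (by positivity)
      _ = 1 := inv_mul_cancel₀ hSpos.ne'
  have hb := h.bdd 4 _ _ hadm
  rw [Fin.sum_univ_four] at hb
  simp only [Matrix.cons_val_zero, Matrix.cons_val_one, Matrix.cons_val] at hb
  rw [h.hom _ _ _ hwpos.le, h.hom _ _ _ hwpos.le, h.hom _ _ _ hwpos.le, h.hom _ _ _ hwpos.le,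
    abs_mul, abs_mul, abs_mul, abs_mul, abs_of_pos hwpos, ← mul_add, ← mul_add, ← mul_add, hw,
    inv_mul_le_iff₀ hSpos, mul_one] at hb
  simp only [swap, rot] at h0 h1 h2 h3 hb
  have e1 : cone (swap Y) K = cone (fun a b => Y b a) K := rfl
  have e2 : cone (rot Y) K = cone (fun a b => Y ((a + b) / √2) ((a - b) / √2)) K := rfl
  have e3 : cone (swap (rot Y)) K = cone (fun a b => Y ((b + a) / √2) ((b - a) / √2)) K := rfl
  rw [e1, e2, e3]
  linarith

/-- No function satisfies all four conditions. -/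
theorem contradiction {Y : ℝ → ℝ → ℝ} (h : Good Y)
    (h0 : 1 ≤ cone Y 20 + (√2 - 1) * cone (swap Y) 20 + (12 + 3 * 20) * (1 / 10000))
    (h1 : 1 ≤ cone (swap Y) 20 + (√2 - 1) * cone Y 20 + (12 + 3 * 20) * (1 / 10000))
    (h2 : 1 ≤ cone (rot Y) 20 + (√2 - 1) * cone (swap (rot Y)) 20 +
      (12 + 3 * 20) * (1 / 10000))
    (h3 : 1 ≤ cone (swap (rot Y)) 20 + (√2 - 1) * cone (rot Y) 20 +
      (12 + 3 * 20) * (1 / 10000)) : False := by
  have hs2 := sqrt_two_pos
  have hs3 := sq_sqrt_two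
  have ht := test h (show (1 : ℝ) ≤ 20 by norm_num)
  set A := cone Y 20 + cone (swap Y) 20 + cone (rot Y) 20 + cone (swap (rot Y)) 20 with hA
  have h4 : 4 - 4 * (72 / 10000) ≤ √2 * A := by
    rw [hA]
    linarith
  set R := √(4 + 2 * √2) with hR
  have hR2 : R * R = 4 + 2 * √2 := Real.mul_self_sqrt (by positivity)
  have hR0 : 0 ≤ R := Real.sqrt_nonneg _
  have h5 : 4 - 4 * (72 / 10000) ≤ √2 * ((1 + 1 / 20) * R) :=
    h4.trans (mul_le_mul_of_nonneg_left ht hs2.le)
  have hs4 : √2 < 1.42 := by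
    rw [Real.sqrt_lt' (by norm_num)]
    norm_num
  have h6 : (4 - 4 * (72 / 10000)) ^ 2 ≤ (√2 * ((1 + 1 / 20) * R)) ^ 2 :=
    pow_le_pow_left₀ (by norm_num) h5 2
  have h7 : (√2 * ((1 + 1 / 20) * R)) ^ 2 = (√2 * √2) * (R * R) * (21 / 20) ^ 2 := by ring
  rw [h7, hs3, hR2] at h6
  norm_num at h6
  linarith

/-! ### The free Banach lattice over the Euclidean plane -/

/-- The Euclidean plane. -/
abbrev Plane : Type := EuclideanSpace ℝ (Fin 2)

/-- The functional with coordinates `a`, `b`. -/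
def fn (a b : ℝ) : Dual' Plane := a • EuclideanSpace.proj 0 + b • EuclideanSpace.proj 1

theorem fn_apply (a b : ℝ) (x : Plane) : fn a b x = a * x 0 + b * x 1 := rfl

/-- The unit vectors. -/
def e0 : Plane := EuclideanSpace.single 0 1

/-- The unit vectors. -/
def e1 : Plane := EuclideanSpace.single 1 1

theorem eq_fn (φ : Dual' Plane) : φ = fn (φ e0) (φ e1) := by
  ext x
  have hx : x = x 0 • e0 + x 1 • e1 := by
    ext i
    fin_cases i <;> simp [e0, e1]
  conv_lhs => rw [hx]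
  rw [map_add, map_smul, map_smul, fn_apply, smul_eq_mul, smul_eq_mul]
  ring

theorem norm_sq (x : Plane) : ‖x‖ ^ 2 = x 0 ^ 2 + x 1 ^ 2 := by
  rw [EuclideanSpace.real_norm_sq_eq, Fin.sum_univ_two]

theorem adm_of_adm2 {m : ℕ} {a b : Fin m → ℝ} (h : Adm2 a b) : Adm fun i => fn (a i) (b i) := by
  intro x hx
  simp only [fn_apply]
  refine h (x 0) (x 1) ?_
  rw [← norm_sq]
  exact pow_le_one₀ (norm_nonneg _) hx

theorem adm2_of_adm {m : ℕ} {φ : Fin m → Dual' Plane} (h : Adm φ) :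
    Adm2 (fun i => φ i e0) (fun i => φ i e1) := by
  intro s t hst
  have hx : ‖s • e0 + t • e1‖ ≤ 1 := by
    have : ‖s • e0 + t • e1‖ ^ 2 = s ^ 2 + t ^ 2 := by
      rw [norm_sq]
      simp [e0, e1]
    rw [← abs_norm, ← sq_le_one_iff_abs_le_one, this]
    exact hst
  refine le_trans (le_of_eq ?_) (h _ hx)
  refine Finset.sum_congr rfl fun i _ => ?_
  rw [map_add, map_smul, map_smul, smul_eq_mul, smul_eq_mul, mul_comm s, mul_comm t]

/-- An element of `H[E]` in coordinates. -/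
def coord (y : H Plane) : ℝ → ℝ → ℝ := fun a b => y (fn a b)

theorem coord_good {y : H Plane} (hy : ‖y‖ ≤ 1) : Good (coord y) where
  hom r a b hr := by
    have h1 : fn (r * a) (r * b) = r • fn a b := by
      ext x
      rw [fn_apply, _root_.smul_apply, fn_apply, smul_eq_mul]
      ring
    simp only [coord]
    rw [h1, y.hom r _ hr]
  bdd m a b hab := (y.sum_le_norm (adm_of_adm2 hab)).trans hy

theorem coord_apply (y : H Plane) (φ : Dual' Plane) : y φ = coord y (φ e0) (φ e1) := by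
  simp only [coord]
  rw [← eq_fn φ]

/-- The bump in the direction `u`. -/
def bumpAt (u v : Plane) : H Plane := hsup (habs (delta u) - (20 : ℝ) • habs (delta v)) 0

theorem bumpAt_apply (u v : Plane) (φ : Dual' Plane) : bumpAt u v φ = bump 20 (φ u) (φ v) := by
  simp only [bumpAt, hsup_apply, H.sub_apply, H.smul_apply, habs_apply, delta_apply, H.zero_apply,
    bump]

theorem bumpAt_mem (u v : Plane) : bumpAt u v ∈ FBLsub Plane :=
  sublattice_le (hsup_mem (Submodule.sub_mem _ (habs_mem (delta_mem u))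
    (Submodule.smul_mem _ _ (habs_mem (delta_mem v)))) (Submodule.zero_mem _))

theorem norm_fn_le {a b : ℝ} (h : a ^ 2 + b ^ 2 = 1) : ‖fn a b‖ ≤ 1 := by
  refine ContinuousLinearMap.opNorm_le_bound _ zero_le_one fun x => ?_
  rw [one_mul, fn_apply, Real.norm_eq_abs]
  refine abs_le_of_sq_le_sq ?_ (norm_nonneg _)
  rw [norm_sq]
  nlinarith [sq_nonneg (a * x 1 - b * x 0)]

theorem one_le_norm_bumpAt {u v : Plane} {a b : ℝ} (h : a ^ 2 + b ^ 2 = 1) (hu : fn a b u = 1)
    (hv : fn a b v = 0) : 1 ≤ ‖bumpAt u v‖ := by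
  have h1 := (bumpAt u v).abs_apply_le (fn a b)
  rw [bumpAt_apply, hu, hv] at h1
  have h2 : bump 20 1 0 = 1 := by simp [bump]
  rw [h2, abs_one] at h1
  have h3 := norm_fn_le h
  nlinarith [norm_nonneg (bumpAt u v)]

/-- The norm of the free Banach lattice over the Euclidean plane is not octahedral. -/
theorem not_octahedral : ¬ Octahedral (FBL (EuclideanSpace ℝ (Fin 2))) := by
  classical
  intro hoct
  have hs2 := sqrt_two_pos
  have hs3 := sq_sqrt_two
  set u' : Plane := (1 / √2) • (e0 + e1) with hu'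
  set v' : Plane := (1 / √2) • (e0 - e1) with hv'
  have he00 : e0 0 = 1 := by simp [e0]
  have he01 : e0 1 = 0 := by simp [e0]
  have he10 : e1 0 = 0 := by simp [e1]
  have he11 : e1 1 = 1 := by simp [e1]
  have hu'a : ∀ φ : Dual' Plane, φ u' = (φ e0 + φ e1) / √2 := fun φ => by
    rw [hu', map_smul, map_add, smul_eq_mul]; ring
  have hv'a : ∀ φ : Dual' Plane, φ v' = (φ e0 - φ e1) / √2 := fun φ => by
    rw [hv', map_smul, map_sub, smul_eq_mul]; ring
  have hE0 : ∀ φ : Dual' Plane, (φ u' + φ v') / √2 = φ e0 := fun φ => by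
    rw [hu'a, hv'a, ← add_div, div_div, hs3]; ring
  have hE1 : ∀ φ : Dual' Plane, (φ u' - φ v') / √2 = φ e1 := fun φ => by
    rw [hu'a, hv'a, ← sub_div, div_div, hs3]; ring
  let z : Fin 4 → FBL Plane := ![⟨bumpAt e0 e1, bumpAt_mem _ _⟩, ⟨bumpAt e1 e0, bumpAt_mem _ _⟩,
    ⟨bumpAt u' v', bumpAt_mem _ _⟩, ⟨bumpAt v' u', bumpAt_mem _ _⟩]
  obtain ⟨y, hy, hy2⟩ := hoct (Submodule.span ℝ (Set.range z))
    (FiniteDimensional.span_of_finite ℝ (Set.finite_range z)) (1 / 10000) (by norm_num)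
  have hy' : ‖(y : H Plane)‖ = 1 := hy
  have hgood := coord_good hy'.le
  -- consequence for each bump
  have hcon : ∀ u v : Plane, ∀ hm : bumpAt u v ∈ FBLsub Plane, (⟨bumpAt u v, hm⟩ : FBL Plane) ∈
      Set.range z → 1 ≤ ‖bumpAt u v‖ → ∃ (m : ℕ) (φ : Fin m → Dual' Plane), Adm φ ∧
      2 - 3 * (1 / 10000 : ℝ) ≤ ∑ i, |bump 20 (φ i u) (φ i v) + coord y (φ i e0) (φ i e1)| := by
    intro u v hm hmem hn
    have h1 := hy2 _ (Submodule.subset_span hmem) 1
    rw [one_smul, abs_one] at h1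
    have h2 : (2 - 3 * (1 / 10000 : ℝ)) < ‖bumpAt u v + (y : H Plane)‖ := by
      have h3 : ‖(⟨bumpAt u v, hm⟩ : FBL Plane) + y‖ = ‖bumpAt u v + (y : H Plane)‖ := rfl
      have h4 : ‖(⟨bumpAt u v, hm⟩ : FBL Plane)‖ = ‖bumpAt u v‖ := rfl
      rw [h3, h4] at h1
      linarith
    obtain ⟨m, φ, hφ, hlt⟩ := H.exists_lt h2
    refine ⟨m, φ, hφ, hlt.le.trans (le_of_eq ?_)⟩
    refine Finset.sum_congr rfl fun i _ => ?_
    rw [H.add_apply, bumpAt_apply, coord_apply]
  have hhalf : (√2 / 2) ^ 2 + (√2 / 2) ^ 2 = 1 := by nlinarith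
  have hhalf' : (√2 / 2) ^ 2 + (-(√2 / 2)) ^ 2 = 1 := by nlinarith
  have hinv : 1 / √2 = √2 / 2 := by
    rw [div_eq_div_iff hs2.ne' (by norm_num), hs3, one_mul]
  refine contradiction hgood ?_ ?_ ?_ ?_
  · obtain ⟨m, φ, hφ, hs⟩ := hcon e0 e1 (bumpAt_mem _ _) ⟨0, rfl⟩
      (one_le_norm_bumpAt (a := 1) (b := 0) (by norm_num)
        (by rw [fn_apply, he00, he01]; norm_num) (by rw [fn_apply, he10, he11]; norm_num))
    exact key hgood (by norm_num) (by norm_num) (adm2_of_adm hφ) hs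
  · obtain ⟨m, φ, hφ, hs⟩ := hcon e1 e0 (bumpAt_mem _ _) ⟨1, rfl⟩
      (one_le_norm_bumpAt (a := 0) (b := 1) (by norm_num)
        (by rw [fn_apply, he10, he11]; norm_num) (by rw [fn_apply, he00, he01]; norm_num))
    have hadm : Adm2 (fun i => φ i e1) (fun i => φ i e0) := fun s t hst => by
      have := adm2_of_adm hφ t s (by linarith)
      simpa only [add_comm] using this
    exact key hgood.swap (by norm_num) (by norm_num) hadm hs
  · obtain ⟨m, φ, hφ, hs⟩ := hcon u' v' (bumpAt_mem _ _) ⟨2, rfl⟩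
      (one_le_norm_bumpAt (a := √2 / 2) (b := √2 / 2) hhalf
        (by rw [hu'a, fn_apply, fn_apply, he00, he01, he10, he11, div_eq_iff hs2.ne']; ring)
        (by rw [hv'a, fn_apply, fn_apply, he00, he01, he10, he11, div_eq_iff hs2.ne']; ring))
    have hadm : Adm2 (fun i => φ i u') (fun i => φ i v') := by
      intro s t hst
      have h1 := adm2_of_adm hφ ((s + t) / √2) ((s - t) / √2) (by
        rw [div_pow, div_pow, Real.sq_sqrt (by norm_num)]
        nlinarith)
      refine le_trans (le_of_eq ?_) h1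
      refine Finset.sum_congr rfl fun i _ => ?_
      beta_reduce
      rw [hu'a, hv'a]
      congr 1
      ring
    refine key hgood.rot (by norm_num) (by norm_num) hadm (hs.trans (le_of_eq ?_))
    refine Finset.sum_congr rfl fun i _ => ?_
    simp only [rot]
    rw [hE0, hE1]
  · obtain ⟨m, φ, hφ, hs⟩ := hcon v' u' (bumpAt_mem _ _) ⟨3, rfl⟩
      (one_le_norm_bumpAt (a := √2 / 2) (b := -(√2 / 2)) hhalf'
        (by rw [hv'a, fn_apply, fn_apply, he00, he01, he10, he11, div_eq_iff hs2.ne']; ring)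
        (by rw [hu'a, fn_apply, fn_apply, he00, he01, he10, he11, div_eq_iff hs2.ne']; ring))
    have hadm : Adm2 (fun i => φ i v') (fun i => φ i u') := by
      intro s t hst
      have h1 := adm2_of_adm hφ ((t + s) / √2) ((t - s) / √2) (by
        rw [div_pow, div_pow, Real.sq_sqrt (by norm_num)]
        nlinarith)
      refine le_trans (le_of_eq ?_) h1
      refine Finset.sum_congr rfl fun i _ => ?_
      beta_reduce
      rw [hu'a, hv'a]
      congr 1
      ring
    refine key hgood.rot.swap (by norm_num) (by norm_num) hadm (hs.trans (le_of_eq ?_))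
    refine Finset.sum_congr rfl fun i _ => ?_
    simp only [rot, swap]
    rw [hE0, hE1]

/-- There is a two-dimensional Banach space `E`, namely the Euclidean plane, such that the norm of
the free Banach lattice generated by `E` is not octahedral. -/
theorem result : ∃ (E : Type) (_ : NormedAddCommGroup E) (_ : NormedSpace ℝ E),
    FiniteDimensional ℝ E ∧ Module.finrank ℝ E = 2 ∧
      Nonempty (E ≃ₗᵢ[ℝ] EuclideanSpace ℝ (Fin 2)) ∧ ¬ Octahedral (FBL E) :=
  ⟨EuclideanSpace ℝ (Fin 2), inferInstance, inferInstance, inferInstance,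
    finrank_euclideanSpace_fin, ⟨LinearIsometryEquiv.refl ℝ _⟩, not_octahedral⟩

end Pool.Agent.Results.MP_8a6196_an.NotOctahedral
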